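import Pool.Agent.H.MP_963612_co.Topo

set_option autoImplicit false

namespace Pool.Agent.Results.MP_d609bd_co.Empty

open Pool.Agent.H.MP_963612_co Set

/-- `G` has a drawing in the plane in which every edge is crossed at most `k` times; a crossing on
the edge `uv` is a pair (another edge, common interior point of the two curves). -/
def KPlanar {V : Type} (G : SimpleGraph V) (k : ℕ) : Prop :=
  ∃ p : V → ℝ × ℝ, Function.Injective p ∧ ∃ γ : V → V → ℝ → ℝ × ℝ,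
    (∀ u v, G.Adj u v → ContinuousOn (γ u v) (Set.Icc 0 1) ∧ Set.InjOn (γ u v) (Set.Icc 0 1) ∧
      γ u v 0 = p u ∧ γ u v 1 = p v ∧ ∀ t, γ v u t = γ u v (1 - t)) ∧
    (∀ u v w t, G.Adj u v → 0 < t → t < 1 → γ u v t ≠ p w) ∧
    (∀ u v, G.Adj u v → {c : Sym2 V × (ℝ × ℝ) | c.1 ≠ s(u, v) ∧ ∃ a b, G.Adj a b ∧ c.1 = s(a, b) ∧
      ∃ s t : ℝ, 0 < s ∧ s < 1 ∧ 0 < t ∧ t < 1 ∧ γ a b s = c.2 ∧ γ u v t = c.2}.encard ≤ k)

/-- The statement `P(d,k)`. -/
def PP (d k : ℕ) : Prop :=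
  ∀ (V : Type) (_ : Fintype V) (G : SimpleGraph V), Toroidal G →
    (∀ v, (G.neighborSet v).ncard ≤ d) →
    ∃ F : Set (Sym2 V), F ⊆ G.edgeSet ∧ F.ncard ≤ k ∧ KPlanar (G.deleteEdges F) k

theorem result : ∀ d : ℕ, 3 ≤ d → ¬ ∃ k : ℕ, PP d k := by
  classical
  rintro d hd ⟨k, hk⟩
  obtain ⟨P, h2, hP⟩ := noRepBad (16 + 6 * k)
  obtain ⟨F, -, hF, p, hp, γ, h1, h3, h4⟩ := hk P.V3 inferInstance P.H3 P.toroidal_H3
    fun v => (P.deg_H3 h2 v).trans hd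
  set G := P.H3.deleteEdges F with hG
  have hdeg : ∀ u, (G.neighborSet u).ncard ≤ 3 := fun u =>
    (ncard_le_ncard fun v hv => (SimpleGraph.deleteEdges_adj.1 hv).1).trans (P.deg_H3 h2 u)
  have e2 : ∀ e : Sym2 P.V3, {x | x ∈ e}.ncard ≤ 2 := by
    intro e
    induction e using Sym2.ind with
    | _ a b =>
      have : {x | x ∈ s(a, b)} = {a, b} := by ext x; simp
      rw [this]; exact (ncard_insert_le _ _).trans (by simp)
  set A : P.V3 → Set (ℝ × ℝ) := fun u => {p u} ∪ ⋃ v ∈ G.neighborSet u, γ u v '' Icc 0 1 with hA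
  obtain ⟨ε, hε⟩ := exists_eps A fun u => isCompact_singleton.union
    ((toFinite _).isCompact_biUnion fun v hv => isCompact_Icc.image_of_continuousOn (h1 _ _ hv).1)
  have pA : ∀ u, p u ∈ A u := fun u => Or.inl rfl
  refine hP (fun u => disc ε (A u)) (toFinite (⋃ e ∈ F, {x | x ∈ e})).toFinset (fun u _ => ?_)
    (fun u _ z hz z' hz' => disc_cn ε ?_ hz hz') (fun u v hu _ ha => ?_) ?_ fun u _ => ?_
  · obtain ⟨z, hz⟩ := cell_ne ε (p u)
    exact ⟨z, p u, pA u, hz⟩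
  · refine isPreconnected_of_forall (p u) ?_
    rintro y (hy | hy)
    · exact ⟨{p u}, by simp [pA], rfl, hy, isPreconnected_singleton⟩
    · obtain ⟨v, hv, hy⟩ := mem_iUnion₂.1 hy
      exact ⟨γ u v '' Icc 0 1, fun x hx => Or.inr (mem_biUnion hv hx),
        ⟨0, by simp, (h1 u v hv).2.2.1⟩, hy, isPreconnected_Icc.image _ (h1 u v hv).1⟩
  · have ha' : G.Adj u v := SimpleGraph.deleteEdges_adj.2 ⟨ha, fun h => hu (by
      rw [Finite.mem_toFinset]; exact mem_biUnion h (by simp))⟩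
    obtain ⟨z, hz⟩ := cell_ne ε (p v)
    exact Set.not_disjoint_iff.2 ⟨z, ⟨p v, Or.inr (mem_biUnion ha'
      ⟨1, by simp, (h1 u v ha').2.2.2.1⟩), hz⟩, ⟨p v, pA v, hz⟩⟩
  · rw [← ncard_eq_toFinset_card]
    have := ncard_biUnion_le F (toFinite _) (fun e => {x | x ∈ e}) k 2 hF fun e _ => e2 e
    omega
  · set N : P.V3 → Set P.V3 := fun u => insert u (G.neighborSet u) with hN
    have cN : ∀ u, (N u).ncard ≤ 4 := fun u => (ncard_insert_le _ _).trans (by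
      have := hdeg u; omega)
    set Cr : P.V3 → Set (Sym2 P.V3 × (ℝ × ℝ)) := fun v => {c | c.1 ≠ s(u, v) ∧ ∃ a b, G.Adj a b ∧
      c.1 = s(a, b) ∧ ∃ s t : ℝ, 0 < s ∧ s < 1 ∧ 0 < t ∧ t < 1 ∧ γ a b s = c.2 ∧ γ u v t = c.2}
      with hCr
    have cls : ∀ u, ∀ x ∈ A u, (∃ a ∈ N u, p a = x) ∨ ∃ v, G.Adj u v ∧
        ∃ t, 0 < t ∧ t < 1 ∧ γ u v t = x := by
      rintro u x (hx | hx)
      · exact Or.inl ⟨u, Or.inl rfl, hx.symm⟩
      · obtain ⟨v, hv, t, ht, rfl⟩ := mem_iUnion₂.1 hx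
        rcases ht.1.eq_or_lt with rfl | t0
        · exact Or.inl ⟨u, Or.inl rfl, (h1 _ _ hv).2.2.1.symm⟩
        rcases ht.2.eq_or_lt with rfl | t1
        · exact Or.inl ⟨v, Or.inr hv, (h1 _ _ hv).2.2.2.1.symm⟩
        exact Or.inr ⟨v, hv, t, t0, t1, rfl⟩
    have hsub : {v | v ∉ (toFinite (⋃ e ∈ F, {x | x ∈ e})).toFinset ∧
        ¬ Disjoint (disc ε (A u)) (disc ε (A v))} ⊆ (⋃ a ∈ N u, N a) ∪
        ⋃ v ∈ G.neighborSet u, ⋃ c ∈ Cr v, {x | x ∈ c.1} := by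
      intro w hw
      obtain ⟨x, hx, hx'⟩ := Set.not_disjoint_iff.1 fun h => hw.2 (hε u w h)
      rcases cls u x hx with ⟨a, ha, rfl⟩ | ⟨v, hv, t, t0, t1, rfl⟩ <;>
        rcases cls w _ hx' with ⟨a', ha', e⟩ | ⟨v', hv', t', t0', t1', e⟩
      · obtain rfl := hp e
        refine Or.inl (mem_biUnion ha ?_)
        rcases ha' with h | h
        exacts [Or.inl h.symm, Or.inr (SimpleGraph.Adj.symm h : G.Adj a' w)]
      · exact absurd e (h3 _ _ _ _ hv' t0' t1')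
      · exact absurd e.symm (h3 _ _ _ _ hv t0 t1)
      · by_cases c : s(w, v') = s(u, v)
        · refine Or.inl (mem_biUnion (x := u) (Or.inl rfl) ?_)
          rcases Sym2.eq_iff.1 c with ⟨rfl, -⟩ | ⟨rfl, -⟩
          exacts [Or.inl rfl, Or.inr hv]
        · exact Or.inr (mem_biUnion hv (mem_biUnion (x := (s(w, v'), γ u v t))
            ⟨c, w, v', hv', rfl, t', t, t0', t1', t0, t1, e, rfl⟩ (by simp)))
    refine (ncard_le_ncard hsub).trans ((ncard_union_le _ _).trans ?_)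
    have c1 := ncard_biUnion_le (N u) (toFinite _) N 4 4 (cN u) fun a _ => cN a
    have c2 := ncard_biUnion_le (G.neighborSet u) (toFinite _)
      (fun v => ⋃ c ∈ Cr v, {x | x ∈ c.1}) 3 (k * 2) (hdeg u) fun v hv => by
        obtain ⟨f1, f2⟩ := (encard_le_coe_iff_finite_ncard_le).1 (h4 u v hv)
        exact ncard_biUnion_le (Cr v) f1 _ k 2 f2 fun c _ => e2 c.1
    omega

end Pool.Agent.Results.MP_d609bd_co.Empty
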